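import Mathlib

set_option autoImplicit false

open Cardinal

universe u v

namespace W61ad90

/-- There is a colouring of the subsets of `α` by `β` such that the countably infinite subsets of
every set of size `κ` realise all colours. -/
def NegRel (α : Type u) (κ : Cardinal.{u}) (β : Type v) : Prop :=
  ∃ f : Set α → β, ∀ H : Set α, Cardinal.mk H = κ →
    ∀ c : β, ∃ A : Set α, A ⊆ H ∧ Cardinal.mk A = Cardinal.aleph0 ∧ f A = c

/-- A set of size at least `κ` has a subset of size exactly `κ`. -/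
theorem exists_sub {α : Type u} {κ : Cardinal.{u}} (H : Set α) (h : κ ≤ Cardinal.mk H) :
    ∃ K : Set α, K ⊆ H ∧ Cardinal.mk K = κ := by
  obtain ⟨K, hK, hc⟩ := Cardinal.le_mk_iff_exists_subset.1 h
  exact ⟨K, hK, hc⟩

/-- The defining property for sets of size at least `κ`. -/
theorem ge_of {α : Type u} {κ : Cardinal.{u}} {β : Type v} {f : Set α → β}
    (hf : ∀ H : Set α, Cardinal.mk H = κ →
      ∀ c : β, ∃ A : Set α, A ⊆ H ∧ Cardinal.mk A = Cardinal.aleph0 ∧ f A = c)
    (H : Set α) (h : κ ≤ Cardinal.mk H) (c : β) :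
    ∃ A : Set α, A ⊆ H ∧ Cardinal.mk A = Cardinal.aleph0 ∧ f A = c := by
  obtain ⟨K, hK, hc⟩ := exists_sub H h
  obtain ⟨A, hA, h2, h3⟩ := hf K hc c
  exact ⟨A, hA.trans hK, h2, h3⟩

theorem NegRel.mono {α α' : Type u} {κ : Cardinal.{u}} {β : Type v} (e : α' ↪ α)
    (h : NegRel α κ β) : NegRel α' κ β := by
  obtain ⟨f, hf⟩ := h
  refine ⟨fun A => f (e '' A), fun H hH c => ?_⟩
  obtain ⟨A, hA, h2, h3⟩ := hf (e '' H) (by rw [Cardinal.mk_image_eq e.injective]; exact hH) c
  have h4 : e '' (e ⁻¹' A) = A := by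
    rw [Set.image_preimage_eq_inter_range]
    refine Set.inter_eq_left.2 fun x hx => ?_
    obtain ⟨y, -, hy⟩ := hA hx
    exact ⟨y, hy⟩
  refine ⟨e ⁻¹' A, fun x hx => ?_, ?_, ?_⟩
  · obtain ⟨y, hy, hyx⟩ := hA hx
    rwa [← e.injective hyx]
  · rw [← Cardinal.mk_image_eq e.injective, h4]
    exact h2
  · simp only [h4]
    exact h3

/-- A union of fewer than `κ` sets of size less than `κ` has size less than `κ`. -/
theorem union_lt {ι α : Type u} {κ : Cardinal.{u}} (hκ : κ.IsRegular) (s : ι → Set α)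
    (hι : Cardinal.mk ι < κ) (hs : ∀ i, Cardinal.mk (s i) < κ) :
    Cardinal.mk (⋃ i, s i : Set α) < κ := by
  refine (Cardinal.mk_iUnion_le_sum_mk).trans_lt ?_
  exact Cardinal.sum_lt_of_isRegular hκ hι hs

/-- Sums. -/
theorem NegRel.sigma {I : Type u} {α : I → Type u} {κ : Cardinal.{u}} {β : Type v} [Nonempty β]
    (hκ : κ.IsRegular) (hI : NegRel I κ β) (hα : ∀ i, NegRel (α i) κ β) :
    NegRel (Σ i, α i) κ β := by
  classical
  obtain ⟨fI, hfI⟩ := hI
  choose f hf using hα
  let F : Set (Σ i, α i) → β := fun A =>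
    if h : ∃ i, ∀ x ∈ A, x.1 = i then f h.choose {y | (⟨h.choose, y⟩ : Σ i, α i) ∈ A}
    else fI (Sigma.fst '' A)
  refine ⟨F, fun H hH c => ?_⟩
  by_cases hcase : ∃ i, κ ≤ Cardinal.mk {y : α i | (⟨i, y⟩ : Σ i, α i) ∈ H}
  · obtain ⟨i, hi⟩ := hcase
    obtain ⟨A, hA, h2, h3⟩ := ge_of (hf i) _ hi c
    have hinj : Function.Injective (fun y : α i => (⟨i, y⟩ : Σ i, α i)) := sigma_mk_injective
    refine ⟨(fun y : α i => (⟨i, y⟩ : Σ i, α i)) '' A, ?_, ?_, ?_⟩
    · rintro _ ⟨y, hy, rfl⟩
      exact hA hy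
    · rw [Cardinal.mk_image_eq hinj]
      exact h2
    · have hne : A.Nonempty := by
        rw [Set.nonempty_iff_ne_empty]
        rintro rfl
        rw [Cardinal.mk_emptyCollection] at h2
        exact Cardinal.aleph0_ne_zero h2.symm
      have hex : ∃ j, ∀ x ∈ (fun y : α i => (⟨i, y⟩ : Σ i, α i)) '' A, x.1 = j :=
        ⟨i, by rintro _ ⟨y, -, rfl⟩; rfl⟩
      have hch : hex.choose = i := by
        obtain ⟨y, hy⟩ := hne
        exact (hex.choose_spec _ ⟨y, hy, rfl⟩).symm
      have key : ∀ j : I, j = i →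
          f j {y | (⟨j, y⟩ : Σ i, α i) ∈ (fun y : α i => (⟨i, y⟩ : Σ i, α i)) '' A} = c := by
        rintro j rfl
        have : {y | (⟨j, y⟩ : Σ i, α i) ∈ (fun y : α j => (⟨j, y⟩ : Σ i, α i)) '' A} = A := by
          ext y
          constructor
          · rintro ⟨z, hz, hzy⟩
            rwa [← hinj hzy]
          · intro hy
            exact ⟨y, hy, rfl⟩
        rw [this]
        exact h3
      have hF : F ((fun y : α i => (⟨i, y⟩ : Σ i, α i)) '' A) =
          f hex.choose {y | (⟨hex.choose, y⟩ : Σ i, α i) ∈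
            (fun y : α i => (⟨i, y⟩ : Σ i, α i)) '' A} := dif_pos hex
      rw [hF]
      exact key _ hch
  · push Not at hcase
    -- the index set is large
    have hJ : κ ≤ Cardinal.mk (Sigma.fst '' H : Set I) := by
      by_contra hlt
      push Not at hlt
      have h1 : H = ⋃ j : (Sigma.fst '' H : Set I),
          (fun y : α j => (⟨j, y⟩ : Σ i, α i)) '' {y : α j | (⟨j, y⟩ : Σ i, α i) ∈ H} := by
        ext ⟨i, y⟩
        simp only [Set.mem_iUnion]
        constructor
        · intro hx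
          exact ⟨⟨i, ⟨⟨i, y⟩, hx, rfl⟩⟩, ⟨y, hx, rfl⟩⟩
        · rintro ⟨⟨j, hj⟩, ⟨z, hz, hzx⟩⟩
          rw [← hzx]
          exact hz
      have h2 : Cardinal.mk H < κ := by
        rw [h1]
        refine union_lt hκ _ hlt fun j => ?_
        exact (Cardinal.mk_image_le).trans_lt (hcase j)
      exact absurd hH (ne_of_lt h2)
    obtain ⟨B, hB, h2, h3⟩ := ge_of hfI _ hJ c
    -- choose representatives
    have hrep : ∀ i : B, ∃ x : (Σ i, α i), x ∈ H ∧ x.1 = i := by
      rintro ⟨i, hi⟩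
      obtain ⟨x, hx, hxi⟩ := hB hi
      exact ⟨x, hx, hxi⟩
    choose r hr hr' using hrep
    have hrinj : Function.Injective r := by
      intro i j hij
      apply Subtype.ext
      rw [← hr' i, ← hr' j, hij]
    have himg : Sigma.fst '' (Set.range r) = B := by
      ext i
      constructor
      · rintro ⟨_, ⟨j, rfl⟩, rfl⟩
        rw [hr' j]
        exact j.2
      · intro hi
        exact ⟨r ⟨i, hi⟩, ⟨⟨i, hi⟩, rfl⟩, hr' ⟨i, hi⟩⟩
    refine ⟨Set.range r, ?_, ?_, ?_⟩
    · rintro _ ⟨i, rfl⟩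
      exact hr i
    · rw [Cardinal.mk_range_eq r hrinj]
      exact h2
    · have hno : ¬ ∃ i, ∀ x ∈ Set.range r, x.1 = i := by
        rintro ⟨i, hi⟩
        have hsub : B ⊆ {i} := by
          intro j hj
          have := hi (r ⟨j, hj⟩) ⟨⟨j, hj⟩, rfl⟩
          rw [hr'] at this
          exact this
        have : Cardinal.mk B ≤ 1 := by
          have h5 := Cardinal.mk_le_mk_of_subset hsub
          rwa [Cardinal.mk_singleton] at h5
        rw [h2] at this
        exact absurd this (not_le.2 Cardinal.one_lt_aleph0)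
      have hF : F (Set.range r) = fI (Sigma.fst '' Set.range r) := dif_neg hno
      rw [hF, himg]
      exact h3

/-- A countable product of sets of size less than `κ` has size less than `κ`. -/
theorem pi_lt {κ : Cardinal.{0}} (hκ : κ.IsRegular) (hκ2 : ∀ μ < κ, μ ^ Cardinal.aleph0 < κ)
    (γ : ℕ → Type) (hγ : ∀ n, Cardinal.mk (γ n) < κ) : Cardinal.mk (∀ n, γ n) < κ := by
  have hκ0 : Cardinal.aleph0 < κ := by
    refine lt_of_le_of_ne hκ.aleph0_le fun h => ?_
    have h1 := hκ2 2 (by rw [← h]; exact Cardinal.ofNat_lt_aleph0)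
    rw [← h] at h1
    exact absurd h1 (not_lt.2 (Cardinal.cantor _).le)
  have h1 : (⨆ t, Cardinal.mk (γ t)) < κ := by
    refine Cardinal.iSup_lt_of_isRegular hκ ?_ hγ
    rw [Cardinal.mk_nat]
    exact hκ0
  rw [Cardinal.mk_pi]
  refine (Cardinal.prod_le_prod _ (fun _ => ⨆ t, Cardinal.mk (γ t)) fun t => ?_).trans_lt ?_
  · exact le_ciSup Cardinal.bddAbove_of_small t
  · rw [Cardinal.prod_const', Cardinal.mk_nat]
    exact hκ2 _ h1

/-- Countable products. -/
theorem NegRel.pi {α : ℕ → Type} {κ : Cardinal.{0}} {β : Type v} [Nonempty β]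
    (hκ : κ.IsRegular) (hκ2 : ∀ μ < κ, μ ^ Cardinal.aleph0 < κ)
    (hα : ∀ n, NegRel (α n) κ β) : NegRel (∀ n, α n) κ β := by
  classical
  choose f hf using hα
  let F : Set (∀ n, α n) → β := fun A =>
    if h : ∃ n, ((fun x : ∀ n, α n => x n) '' A).Nontrivial then
      f (Nat.find h) ((fun x : ∀ n, α n => x (Nat.find h)) '' A)
    else Classical.arbitrary β
  refine ⟨F, fun H hH c => ?_⟩
  -- some projection is large
  have hbig : ∃ n, κ ≤ Cardinal.mk ((fun x : ∀ n, α n => x n) '' H : Set (α n)) := by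
    by_contra hcon
    push Not at hcon
    have h1 := pi_lt hκ hκ2 (fun n => ((fun x : ∀ n, α n => x n) '' H : Set (α n))) hcon
    have h2 : Cardinal.mk H ≤
        Cardinal.mk (∀ n, ((fun x : ∀ n, α n => x n) '' H : Set (α n))) := by
      refine Cardinal.mk_le_of_injective
        (f := fun x : H => fun n => ⟨x.1 n, ⟨x.1, x.2, rfl⟩⟩) ?_
      intro x y hxy
      apply Subtype.ext
      funext n
      have h3 := congrFun hxy n
      simpa using h3
    rw [hH] at h2
    exact absurd h1 (not_lt.2 h2)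
  set N := Nat.find hbig with hN
  have hNbig := Nat.find_spec hbig
  have hsmall : ∀ m < N, Cardinal.mk ((fun x : ∀ n, α n => x m) '' H : Set (α m)) < κ :=
    fun m hm => not_le.1 (Nat.find_min hbig hm)
  -- make the earlier projections constant
  have hstep : ∀ m, m ≤ N → ∃ H' : Set (∀ n, α n), H' ⊆ H ∧
      κ ≤ Cardinal.mk ((fun x : ∀ n, α n => x N) '' H' : Set (α N)) ∧
      ∀ k < m, ((fun x : ∀ n, α n => x k) '' H').Subsingleton := by
    intro m
    induction m with
    | zero => exact fun _ => ⟨H, subset_rfl, hNbig, fun k hk => absurd hk (Nat.not_lt_zero k)⟩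
    | succ m ih =>
      intro hm
      obtain ⟨H', hH', h1, h2⟩ := ih (by omega)
      by_contra hcon
      push Not at hcon
      have h3 : ∀ y : α m, Cardinal.mk
          ((fun x : ∀ n, α n => x N) '' {x ∈ H' | x m = y} : Set (α N)) < κ := by
        intro y
        by_contra h4
        push Not at h4
        obtain ⟨k, hk, hk2⟩ := hcon {x ∈ H' | x m = y} ((Set.sep_subset _ _).trans hH') h4
        refine absurd hk2 (Set.not_nontrivial_iff.2 ?_)
        rcases Nat.lt_succ_iff_lt_or_eq.1 hk with hk' | hk'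
        · exact (h2 k hk').anti (Set.image_mono (Set.sep_subset _ _))
        · subst hk'
          rintro _ ⟨x, hx, rfl⟩ _ ⟨x', hx', rfl⟩
          exact hx.2.trans hx'.2.symm
      have h5 : ((fun x : ∀ n, α n => x N) '' H' : Set (α N)) =
          ⋃ y : ((fun x : ∀ n, α n => x m) '' H : Set (α m)),
            ((fun x : ∀ n, α n => x N) '' {x ∈ H' | x m = y} : Set (α N)) := by
        ext z
        simp only [Set.mem_iUnion]
        constructor
        · rintro ⟨x, hx, rfl⟩
          exact ⟨⟨x m, ⟨x, hH' hx, rfl⟩⟩, ⟨x, ⟨hx, rfl⟩, rfl⟩⟩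
        · rintro ⟨y, ⟨x, hx, rfl⟩⟩
          exact ⟨x, hx.1, rfl⟩
      have h6 := union_lt hκ
        (fun y : ((fun x : ∀ n, α n => x m) '' H : Set (α m)) =>
          ((fun x : ∀ n, α n => x N) '' {x ∈ H' | x m = y} : Set (α N)))
        (hsmall m (by omega)) (fun y => h3 y)
      rw [← h5] at h6
      exact absurd h6 (not_lt.2 h1)
  obtain ⟨H', hH', h1, h2⟩ := hstep N le_rfl
  obtain ⟨B, hB, hB2, hB3⟩ := ge_of (hf N) _ h1 c
  have hrep : ∀ y : B, ∃ x : (∀ n, α n), x ∈ H' ∧ x N = y := by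
    rintro ⟨y, hy⟩
    obtain ⟨x, hx, hxy⟩ := hB hy
    exact ⟨x, hx, hxy⟩
  choose r hr hr' using hrep
  have hrinj : Function.Injective r := by
    intro i j hij
    apply Subtype.ext
    rw [← hr' i, ← hr' j, hij]
  have himg : (fun x : ∀ n, α n => x N) '' (Set.range r) = B := by
    ext i
    constructor
    · rintro ⟨_, ⟨j, rfl⟩, rfl⟩
      simp only
      rw [hr' j]
      exact j.2
    · intro hi
      exact ⟨r ⟨i, hi⟩, ⟨⟨i, hi⟩, rfl⟩, hr' ⟨i, hi⟩⟩
  refine ⟨Set.range r, ?_, ?_, ?_⟩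
  · rintro _ ⟨i, rfl⟩
    exact hH' (hr i)
  · rw [Cardinal.mk_range_eq r hrinj]
    exact hB2
  · have hBnt : B.Nontrivial := by
      rw [← Set.not_subsingleton_iff]
      intro hs
      have h7 := Cardinal.mk_le_one_iff_set_subsingleton.2 hs
      rw [hB2] at h7
      exact absurd h7 (not_le.2 Cardinal.one_lt_aleph0)
    have hex : ∃ n, ((fun x : ∀ n, α n => x n) '' (Set.range r)).Nontrivial :=
      ⟨N, by rw [himg]; exact hBnt⟩
    have hfind : Nat.find hex = N := by
      rw [Nat.find_eq_iff]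
      refine ⟨by rw [himg]; exact hBnt, fun k hk => ?_⟩
      rw [Set.not_nontrivial_iff]
      refine (h2 k hk).anti (Set.image_mono ?_)
      rintro _ ⟨i, rfl⟩
      exact hr i
    have hF : F (Set.range r) =
        f (Nat.find hex) ((fun x : ∀ n, α n => x (Nat.find hex)) '' (Set.range r)) := dif_pos hex
    have key : ∀ n, n = N → f n ((fun x : ∀ n, α n => x n) '' (Set.range r)) = c := by
      rintro n rfl
      rw [himg]
      exact hB3
    rw [hF]
    exact key _ hfind

end W61ad90
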