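import Pool.Agent.W_MP_61ad90_h44.Basic

set_option autoImplicit false

open Cardinal

namespace W61ad90

/-- The relation `l ↛ [k]^{ℵ₀}_t` between cardinals. -/
def Neg (l k t : Cardinal.{0}) : Prop :=
  ∀ α β : Type, Cardinal.mk α = l → Cardinal.mk β = t →
    ∃ f : Set α → β, ∀ H : Set α, Cardinal.mk H = k →
      ∀ c : β, ∃ A : Set α, A ⊆ H ∧ Cardinal.mk A = Cardinal.aleph0 ∧ f A = c

theorem Neg.mono {l l' k t : Cardinal.{0}} (h : Neg l k t) (hl : l' ≤ l) : Neg l' k t := by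
  intro α β hα hβ
  have h1 : NegRel l.out k β := h l.out β (Cardinal.mk_out l) hβ
  have h2 : Cardinal.mk α ≤ Cardinal.mk l.out := by
    rw [hα, Cardinal.mk_out]
    exact hl
  obtain ⟨e⟩ := (Cardinal.le_def _ _).1 h2
  exact NegRel.mono e h1

theorem neg_of_negRel {l k t : Cardinal.{0}} (ht : t ≠ 0)
    (h : ∀ β : Type, Nonempty β → Cardinal.mk β = t → ∃ α : Type, l ≤ Cardinal.mk α ∧
      NegRel α k β) : Neg l k t := by
  intro α β hα hβ
  have hne : Nonempty β := by
    rw [← Cardinal.mk_ne_zero_iff, hβ]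
    exact ht
  obtain ⟨α', hα', h1⟩ := h β hne hβ
  rw [← hα] at hα'
  obtain ⟨e⟩ := (Cardinal.le_def _ _).1 hα'
  exact NegRel.mono e h1

/-- Singular cardinals. -/
theorem neg_singular {k t l : Cardinal.{0}} (hk : k.IsRegular) (ht : t ≠ 0) (hl : l.IsSingular)
    (h : ∀ n < l, Neg n k t) : Neg l k t := by
  refine neg_of_negRel ht fun β hne hβ => ?_
  obtain ⟨α, rfl⟩ : ∃ α : Type, Cardinal.mk α = l := ⟨l.out, Cardinal.mk_out l⟩
  obtain ⟨_, _, hα⟩ := exists_ord_eq_type_lt α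
  obtain ⟨s, hs, hs'⟩ := Order.exists_cof_eq α
  have hscard : Cardinal.mk s < Cardinal.mk α := by
    have h1 := hl.cof_ord_lt
    rw [hα, Ordinal.cof_type] at h1
    rw [hs']
    exact h1
  -- initial segments
  have hfib : ∀ i : s, Cardinal.mk (Set.Iic (i : α)) < Cardinal.mk α := by
    intro i
    have h1 := Cardinal.mk_Iio_lt (i : α) hα
    have h2 : Set.Iic (i : α) = Set.Iio (i : α) ∪ {(i : α)} := by
      rw [Set.union_singleton, Set.Iio_insert]
    rw [h2]
    refine (Cardinal.mk_union_le _ _).trans_lt ?_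
    have h3 : Cardinal.aleph0 ≤ Cardinal.mk α := by
      have := hl.natCast_lt
      exact Cardinal.aleph0_le.2 fun n => (this n).le
    refine Cardinal.add_lt_of_lt h3 h1 ?_
    rw [Cardinal.mk_singleton]
    exact Cardinal.one_lt_aleph0.trans_le h3
  refine ⟨Σ i : s, Set.Iic (i : α), ?_, ?_⟩
  · refine Cardinal.mk_le_of_injective
      (f := fun x : α => (⟨⟨(hs x).choose, (hs x).choose_spec.1⟩, ⟨x, (hs x).choose_spec.2⟩⟩ :
        Σ i : s, Set.Iic (i : α))) ?_
    intro x y hxy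
    have h1 := congrArg (fun z : (Σ i : s, Set.Iic (i : α)) => (z.2 : α)) hxy
    exact h1
  · refine NegRel.sigma hk ?_ fun i => ?_
    · exact h _ hscard s β rfl hβ
    · exact h _ (hfib i) (Set.Iic (i : α)) β rfl hβ

/-- Powers of cardinals of countable cofinality. -/
theorem neg_power {k t l : Cardinal.{0}} (hk : k.IsRegular)
    (hk2 : ∀ μ < k, μ ^ Cardinal.aleph0 < k) (ht : t ≠ 0) (hl : Cardinal.aleph0 ≤ l)
    (hcof : l.ord.cof = Cardinal.aleph0)
    (h : ∀ n < l, Neg n k t) : Neg (l ^ Cardinal.aleph0) k t := by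
  classical
  refine neg_of_negRel ht fun β hne hβ => ?_
  obtain ⟨α, rfl⟩ : ∃ α : Type, Cardinal.mk α = l := ⟨l.out, Cardinal.mk_out l⟩
  obtain ⟨_, _, hα⟩ := exists_ord_eq_type_lt α
  obtain ⟨s, hs, hs'⟩ := Order.exists_cof_eq α
  have hscard : Cardinal.mk s = Cardinal.aleph0 := by
    rw [hα, Ordinal.cof_type] at hcof
    rw [hs', hcof]
  obtain ⟨e⟩ := Cardinal.eq.1 (hscard.trans Cardinal.mk_nat.symm)
  have hfib : ∀ i : s, Cardinal.mk (Option (Set.Iic (i : α))) < Cardinal.mk α := by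
    intro i
    have h1 := Cardinal.mk_Iio_lt (i : α) hα
    have h2 : Set.Iic (i : α) = Set.Iio (i : α) ∪ {(i : α)} := by
      rw [Set.union_singleton, Set.Iio_insert]
    rw [Cardinal.mk_option, h2]
    refine Cardinal.add_lt_of_lt hl ?_ (Cardinal.one_lt_aleph0.trans_le hl)
    refine (Cardinal.mk_union_le _ _).trans_lt ?_
    refine Cardinal.add_lt_of_lt hl h1 ?_
    rw [Cardinal.mk_singleton]
    exact Cardinal.one_lt_aleph0.trans_le hl
  refine ⟨∀ n : ℕ, Option (Set.Iic ((e.symm (Nat.unpair n).2 : s) : α)), ?_, ?_⟩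
  · have h1 : Cardinal.mk α ^ Cardinal.aleph0 = Cardinal.mk (ℕ → α) := by
      rw [← Cardinal.mk_nat]
      rfl
    rw [h1]
    refine Cardinal.mk_le_of_injective
      (f := fun x : ℕ → α => fun n =>
        if hx : x (Nat.unpair n).1 ≤ ((e.symm (Nat.unpair n).2 : s) : α) then
          some ⟨x (Nat.unpair n).1, hx⟩ else none) ?_
    intro x y hxy
    funext m
    obtain ⟨b, hb, hb2⟩ := hs (x m)
    have h2 := congrFun hxy (Nat.pair m (e ⟨b, hb⟩))
    have key : ∀ (p : ℕ × ℕ), p = (m, e ⟨b, hb⟩) →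
        (if hx : x p.1 ≤ ((e.symm p.2 : s) : α) then
          (some ⟨x p.1, hx⟩ : Option (Set.Iic ((e.symm p.2 : s) : α))) else none) =
        (if hx : y p.1 ≤ ((e.symm p.2 : s) : α) then
          (some ⟨y p.1, hx⟩ : Option (Set.Iic ((e.symm p.2 : s) : α))) else none) → x m = y m := by
      rintro p rfl hp
      simp only at hp
      have h3 : ((e.symm (e ⟨b, hb⟩) : s) : α) = b := by rw [Equiv.symm_apply_apply]
      rw [dif_pos (by rw [h3]; exact hb2)] at hp
      split_ifs at hp with h4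
      have h5 := Option.some.inj hp
      exact congrArg Subtype.val h5
    exact key _ (Nat.unpair_pair _ _) h2
  · refine NegRel.pi hk hk2 fun n => ?_
    exact h _ (hfib _) _ β rfl hβ

/-- Closure of `ℵ₂` under countable powers. -/
theorem aleph_two_closed (hCH : (2 : Cardinal.{0}) ^ Cardinal.aleph0 = Cardinal.aleph 1)
    (μ : Cardinal.{0}) (hμ : μ < Cardinal.aleph 2) : μ ^ Cardinal.aleph0 < Cardinal.aleph 2 := by
  have h2 : (Cardinal.aleph 2 : Cardinal.{0}) = Order.succ (Cardinal.aleph 1) := by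
    rw [Cardinal.succ_aleph]
    congr 1
    norm_num
  rw [h2] at hμ ⊢
  have h3 : μ ≤ Cardinal.aleph 1 := Order.lt_succ_iff.1 hμ
  refine Order.lt_succ_iff.2 ?_
  calc μ ^ Cardinal.aleph0 ≤ (Cardinal.aleph 1) ^ Cardinal.aleph0 :=
        Cardinal.power_le_power_right h3
    _ = ((2 : Cardinal.{0}) ^ Cardinal.aleph0) ^ Cardinal.aleph0 := by rw [hCH]
    _ = 2 ^ Cardinal.aleph0 := by rw [← Cardinal.power_mul, Cardinal.aleph0_mul_aleph0]
    _ = Cardinal.aleph 1 := hCH

theorem regular_two : (Cardinal.aleph 2 : Cardinal.{0}).IsRegular := by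
  have h2 : (Cardinal.aleph 2 : Cardinal.{0}) = Order.succ (Cardinal.aleph 1) := by
    rw [Cardinal.succ_aleph]
    congr 1
    norm_num
  rw [h2]
  exact Cardinal.isRegular_succ (Cardinal.aleph0_le_aleph 1)

/-- Reduction to the finite alephs. -/
theorem neg_aleph_omega_succ {k t : Cardinal.{0}} (hk : k.IsRegular)
    (hk2 : ∀ μ < k, μ ^ Cardinal.aleph0 < k) (ht : t ≠ 0) :
    Neg (Cardinal.aleph (Ordinal.omega0 + 1)) k t ↔ ∀ n : ℕ, Neg (Cardinal.aleph n) k t := by
  constructor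
  · intro h n
    refine h.mono (Cardinal.aleph_le_aleph.2 ?_)
    exact (Ordinal.natCast_lt_omega0 n).le.trans le_self_add
  · intro h
    have hcof : (Cardinal.aleph Ordinal.omega0 : Cardinal.{0}).ord.cof = Cardinal.aleph0 := by
      rw [Cardinal.ord_aleph, Ordinal.cof_omega Ordinal.isSuccLimit_omega0, Ordinal.cof_omega0]
    have h1 : ∀ n < (Cardinal.aleph Ordinal.omega0 : Cardinal.{0}), Neg n k t := by
      intro n hn
      have h2 : ∃ m : ℕ, n ≤ Cardinal.aleph m := by
        rcases lt_or_ge n Cardinal.aleph0 with hn0 | hn0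
        · exact ⟨0, hn0.le.trans (Cardinal.aleph0_le_aleph _)⟩
        · obtain ⟨o, rfl⟩ := Cardinal.mem_range_aleph_iff.2 hn0
          rw [Cardinal.aleph_lt_aleph] at hn
          obtain ⟨m, rfl⟩ := Ordinal.lt_omega0.1 hn
          exact ⟨m, le_rfl⟩
      obtain ⟨m, hm⟩ := h2
      exact (h m).mono hm
    have h3 := neg_power hk hk2 ht (Cardinal.aleph0_le_aleph _) hcof h1
    refine h3.mono ?_
    have h4 := Cardinal.lt_power_cof_ord
      (Cardinal.aleph0_le_aleph Ordinal.omega0 : _ ≤ (Cardinal.aleph Ordinal.omega0 : Cardinal.{0}))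
    rw [hcof] at h4
    have h5 : (Cardinal.aleph (Ordinal.omega0 + 1) : Cardinal.{0}) =
        Order.succ (Cardinal.aleph Ordinal.omega0) := by
      rw [Cardinal.succ_aleph]
    rw [h5]
    exact Order.succ_le_of_lt h4

end W61ad90
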